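import Mathlib

set_option autoImplicit false

/-!
# Primes `q ≡ 1` modulo a high power of two such that many given primes are nonresidues modulo `q`
-/

namespace Pool.Agent.K3h19.US

/-- for all `k`, `n`, `B` there is a prime `q > B` with `2 ^ k ∣ q - 1` such that all odd primes
`p ≤ n` are quadratic nonresidues modulo `q` -/
theorem exists_prime (k n B : ℕ) : ∃ q : ℕ, q.Prime ∧ B < q ∧ 2 ^ k ∣ q - 1 ∧
    ∀ p : ℕ, p.Prime → p ≠ 2 → p ≤ n → ¬ IsSquare (p : ZMod q) := by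
  classical
  -- nonresidues modulo the odd primes
  have hnr : ∀ p : ℕ, ∃ r : ℕ, p.Prime → p ≠ 2 → ¬ IsSquare (r : ZMod p) := by
    intro p
    by_cases hp : p.Prime ∧ p ≠ 2
    · have : Fact p.Prime := ⟨hp.1⟩
      obtain ⟨a, ha⟩ := FiniteField.exists_nonsquare (F := ZMod p) (by
        rw [ZMod.ringChar_zmod_n]
        exact hp.2)
      refine ⟨a.val, fun _ _ => ?_⟩
      rw [ZMod.natCast_zmod_val]
      exact ha
    · exact ⟨0, fun h1 h2 => absurd ⟨h1, h2⟩ hp⟩
  choose r hr using hnr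
  let t : Finset ℕ := insert 2 ((Finset.range (n + 1)).filter Nat.Prime)
  let s : ℕ → ℕ := fun p => if p = 2 then 2 ^ (k + 2) else p
  let a : ℕ → ℕ := fun p => if p = 2 then 1 else r p
  have htp : ∀ p ∈ t, p.Prime := by
    intro p hp
    rcases Finset.mem_insert.mp hp with h | h
    · rw [h]; exact Nat.prime_two
    · exact (Finset.mem_filter.mp h).2
  have hs0 : ∀ i ∈ t, s i ≠ 0 := by
    intro i hi
    show (if i = 2 then 2 ^ (k + 2) else i) ≠ 0
    split_ifs
    · positivity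
    · exact (htp i hi).ne_zero
  have hspow : ∀ p, ∃ e, s p = p ^ e := by
    intro p
    show ∃ e, (if p = 2 then 2 ^ (k + 2) else p) = p ^ e
    split_ifs with h
    · exact ⟨k + 2, by rw [h]⟩
    · exact ⟨1, (pow_one p).symm⟩
  have hpp : Set.Pairwise (t : Set ℕ) (Function.onFun Nat.Coprime s) := by
    intro i hi j hj hij
    obtain ⟨e, he⟩ := hspow i
    obtain ⟨f, hf⟩ := hspow j
    show Nat.Coprime (s i) (s j)
    rw [he, hf]
    apply Nat.Coprime.pow
    exact (Nat.coprime_primes (htp i hi) (htp j hj)).mpr hij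
  obtain ⟨c, hc⟩ := Nat.chineseRemainderOfFinset a s t hs0 hpp
  set M : ℕ := ∏ i ∈ t, s i with hM
  have hM0 : M ≠ 0 := Finset.prod_ne_zero_iff.mpr hs0
  have : NeZero M := ⟨hM0⟩
  have hcop : Nat.Coprime c M := by
    apply Nat.Coprime.prod_right
    intro i hi
    obtain ⟨e, he⟩ := hspow i
    rw [he]
    apply Nat.Coprime.pow_right
    rw [Nat.coprime_comm, (htp i hi).coprime_iff_not_dvd]
    intro hdvd
    have h1 := hc i hi
    by_cases h2 : i = 2
    · subst h2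
      have h3 : c ≡ 1 [MOD 2 ^ (k + 2)] := by simpa [a, s] using h1
      have h4 : c ≡ 1 [MOD 2] := h3.of_dvd (dvd_pow_self 2 (by omega))
      have h5 : c % 2 = 1 := h4
      omega
    · have h3 : c ≡ r i [MOD i] := by simpa [a, s, h2] using h1
      have h4 : (r i : ZMod i) = 0 := by
        rw [← (ZMod.natCast_eq_natCast_iff c (r i) i).mpr h3]
        exact (ZMod.natCast_eq_zero_iff c i).mpr hdvd
      apply hr i (htp i hi) h2
      rw [h4]
      exact IsSquare.zero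
  have hunit : IsUnit (c : ZMod M) := (ZMod.isUnit_iff_coprime c M).mpr hcop
  obtain ⟨q, hq1, hq2, hq3⟩ := Nat.forall_exists_prime_gt_and_eq_mod hunit (B + n + 2)
  have hqc : q ≡ c [MOD M] := (ZMod.natCast_eq_natCast_iff q c M).mp hq3
  have hqi : ∀ i ∈ t, q ≡ a i [MOD s i] := fun i hi =>
    (hqc.of_dvd (Finset.dvd_prod_of_mem s hi)).trans (hc i hi)
  have h2 : q ≡ 1 [MOD 2 ^ (k + 2)] := by
    simpa [a, s] using hqi 2 (Finset.mem_insert_self _ _)
  refine ⟨q, hq2, by omega, ?_, ?_⟩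
  · have h3 : q ≡ 1 [MOD 2 ^ k] := h2.of_dvd (pow_dvd_pow 2 (by omega))
    exact (Nat.modEq_iff_dvd' hq2.one_lt.le).mp h3.symm
  · intro p hp hp2 hpn hsq
    have : Fact p.Prime := ⟨hp⟩
    have : Fact q.Prime := ⟨hq2⟩
    have h4 : q % 4 = 1 := by
      have : q ≡ 1 [MOD 4] := h2.of_dvd ⟨2 ^ k, by ring⟩
      exact this
    have h5 : IsSquare (q : ZMod p) :=
      (ZMod.exists_sq_eq_prime_iff_of_mod_four_eq_one (p := q) (q := p) h4 hp2).mp hsq
    have hpt : p ∈ t := Finset.mem_insert_of_mem (Finset.mem_filter.mpr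
      ⟨Finset.mem_range.mpr (by omega), hp⟩)
    have h6 : q ≡ r p [MOD p] := by simpa [a, s, hp2] using hqi p hpt
    rw [(ZMod.natCast_eq_natCast_iff q (r p) p).mpr h6] at h5
    exact hr p hp hp2 h5

/-- a nonresidue generates the quotient of the units modulo `q` by the `2 ^ k`-th powers -/
theorem pow_dvd_of_mem (q k p j : ℕ) [Fact q.Prime] (hk : 2 ^ k ∣ q - 1)
    (hp : ¬ IsSquare (p : ZMod q)) (u : ZMod q) (hj : 0 < j) (h : (p : ZMod q) ^ j = u ^ 2 ^ k) :
    2 ^ k ∣ j := by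
  by_contra hcon
  obtain ⟨r, m, hm, hjr⟩ := Nat.exists_eq_two_pow_mul_odd hj.ne'
  have hrk : r < k := by
    by_contra h1
    apply hcon
    rw [hjr]
    exact Dvd.dvd.mul_right (pow_dvd_pow 2 (by omega)) m
  have hq2 : q ≠ 2 := by
    rintro rfl
    have h1 : 2 ^ k ∣ 1 := hk
    have h2 : 2 ^ 1 ∣ 2 ^ k := pow_dvd_pow 2 (by omega)
    have := Nat.le_of_dvd one_pos (h2.trans h1)
    omega
  have hp0 : (p : ZMod q) ≠ 0 := by
    intro h0
    apply hp
    rw [h0]
    exact IsSquare.zero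
  have hu0 : u ≠ 0 := by
    rintro rfl
    rw [zero_pow (by positivity)] at h
    exact pow_ne_zero _ hp0 h
  set w : ZMod q := (p : ZMod q) ^ m * (u ^ 2 ^ (k - r))⁻¹ with hw
  have hw1 : w ^ 2 ^ r = 1 := by
    rw [hw, mul_pow, inv_pow, ← pow_mul, ← pow_mul, ← pow_add, mul_comm m, ← hjr, h,
      show k - r + r = k by omega]
    exact mul_inv_cancel₀ (pow_ne_zero _ hu0)
  have hsq : IsSquare w := by
    rw [ZMod.euler_criterion q (by
      rw [hw]
      exact mul_ne_zero (pow_ne_zero _ hp0) (inv_ne_zero (pow_ne_zero _ hu0)))]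
    have h1 : 2 ^ r ∣ q / 2 := by
      obtain ⟨c, hc⟩ := hk
      have hq1 := (Fact.out : q.Prime).one_lt
      have h2 : 2 ^ k = 2 ^ r * 2 ^ (k - r) := by rw [← pow_add]; congr 1; omega
      have h3 : 2 ^ (k - r) = 2 * 2 ^ (k - r - 1) := by
        rw [← pow_succ']; congr 1; omega
      refine ⟨2 ^ (k - r - 1) * c, ?_⟩
      have h4 : q - 1 = 2 * (2 ^ r * (2 ^ (k - r - 1) * c)) := by
        rw [hc, h2, h3]; ring
      omega
    obtain ⟨c, hc⟩ := h1
    rw [hc, pow_mul, hw1, one_pow]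
  apply hp
  -- `p ^ m` is a square times `w`
  have h1 : (p : ZMod q) ^ m = w * (u ^ 2 ^ (k - r)) := by
    rw [hw, mul_assoc, inv_mul_cancel₀ (pow_ne_zero _ hu0), mul_one]
  have h2 : IsSquare ((p : ZMod q) ^ m) := by
    rw [h1]
    apply hsq.mul
    refine ⟨u ^ 2 ^ (k - r - 1), ?_⟩
    rw [← pow_add, ← two_mul, ← pow_succ']
    congr 2
    omega
  obtain ⟨c, hc⟩ := hm
  rw [hc, pow_succ, pow_mul'] at h2
  obtain ⟨d, hd⟩ := h2
  refine ⟨d * ((p : ZMod q) ^ c)⁻¹, ?_⟩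
  have h3 : (p : ZMod q) ^ c ≠ 0 := pow_ne_zero _ hp0
  field_simp
  rw [sq d, ← hd]
  ring

end Pool.Agent.K3h19.US
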