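import Mathlib

set_option autoImplicit false

/-!
# The subfield of degree `2 ^ k` of the field of the `q`-th roots of unity
-/

namespace Pool.Agent.K3h19.US

open IntermediateField Module

abbrev Qb : Type := AlgebraicClosure ℚ

instance instClQ : IsAlgClosure ℚ Qb := ⟨inferInstance, AlgebraicClosure.isAlgebraic ℚ⟩

instance instNormQ : Normal ℚ Qb := IsAlgClosure.normal ℚ Qb

instance instGalQ : IsGalois ℚ Qb := IsAlgClosure.isGalois ℚ Qb

/-- a primitive `q`-th root of unity -/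
noncomputable def zt (q : ℕ) [NeZero q] : Qb :=
  (HasEnoughRootsOfUnity.exists_primitiveRoot Qb q).choose

lemma zt_spec (q : ℕ) [NeZero q] : IsPrimitiveRoot (zt q) q :=
  (HasEnoughRootsOfUnity.exists_primitiveRoot Qb q).choose_spec

variable (q : ℕ) [NeZero q] (k : ℕ)

/-- the cyclotomic character -/
noncomputable def ch : (Qb ≃ₐ[ℚ] Qb) →* (ZMod q)ˣ := (zt_spec q).autToPow ℚ

lemma ch_spec (σ : Qb ≃ₐ[ℚ] Qb) : σ (zt q) = zt q ^ ((ch q σ : ZMod q)).val :=
  ((zt_spec q).autToPow_spec ℚ σ).symm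

/-- the `2 ^ k`-th powers -/
def Hk : Subgroup (ZMod q)ˣ := (powMonoidHom (2 ^ k) : (ZMod q)ˣ →* (ZMod q)ˣ).range

/-- the automorphisms which act as a `2 ^ k`-th power -/
noncomputable def Uk : Subgroup (Qb ≃ₐ[ℚ] Qb) := (Hk q k).comap (ch q)

/-- the field `C` -/
noncomputable def Ck : IntermediateField ℚ Qb := fixedField (Uk q k)

lemma mem_Ck (x : Qb) : x ∈ Ck q k ↔ ∀ σ : Qb ≃ₐ[ℚ] Qb, ch q σ ∈ Hk q k → σ x = x := by
  unfold Ck
  rw [mem_fixedField_iff]
  rfl

lemma Ck_le : Ck q k ≤ ℚ⟮zt q⟯ := by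
  have h1 : fixingSubgroup ℚ⟮zt q⟯ ≤ Uk q k := by
    intro σ hσ
    show ch q σ ∈ Hk q k
    have h2 : σ (zt q) = zt q :=
      (mem_fixingSubgroup_iff _ σ).mp hσ (zt q) (mem_adjoin_simple_self ℚ (zt q))
    have h3 : ch q σ = 1 := by
      have h4 := ch_spec q σ
      rw [h2] at h4
      ext
      rw [Units.val_one]
      by_cases hq1 : q = 1
      · subst hq1
        exact Subsingleton.elim _ _
      have hq : 1 < q := by
        have := NeZero.ne q
        omega
      have : Fact (1 < q) := ⟨hq⟩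
      have h5 : zt q ^ 1 = zt q ^ ((ch q σ : ZMod q)).val := by rw [pow_one]; exact h4
      have h6 := (zt_spec q).pow_inj hq (ZMod.val_lt _) h5
      apply ZMod.val_injective
      rw [ZMod.val_one, ← h6]
    rw [h3]
    exact one_mem _
  have h2 := InfiniteGalois.fixedField_fixingSubgroup (ℚ⟮zt q⟯ : IntermediateField ℚ Qb)
  rw [← h2]
  exact fixedField_antitone h1

instance : FiniteDimensional ℚ ℚ⟮zt q⟯ :=
  adjoin.finiteDimensional ((zt_spec q).isIntegral (NeZero.pos q) |>.tower_top)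

instance instFDC : FiniteDimensional ℚ (Ck q k) :=
  FiniteDimensional.of_injective (inclusion (Ck_le q k)).toLinearMap
    (inclusion (Ck_le q k)).injective

lemma Ck_conj (σ : Qb ≃ₐ[ℚ] Qb) (x : Qb) (hx : x ∈ Ck q k) : σ x ∈ Ck q k := by
  rw [mem_Ck] at hx ⊢
  intro τ hτ
  have h1 := hx (σ⁻¹ * τ * σ) (by
    rw [map_mul, map_mul, map_inv, mul_comm _ (ch q τ), mul_assoc, inv_mul_cancel, mul_one]
    exact hτ)
  have h2 : σ ((σ⁻¹ * τ * σ) x) = τ (σ x) := by
    simp [AlgEquiv.mul_apply]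
  rw [← h2, h1]

lemma instNormC : @Normal ℚ (Ck q k) _ _ (IntermediateField.algebra' (Ck q k)) := by
  rw [normal_iff_forall_map_le']
  intro σ
  rw [map_le_iff_le_comap]
  intro x hx
  exact Ck_conj q k σ x hx

lemma finrank_Ck [Fact q.Prime] (hk : 2 ^ k ∣ q - 1) : finrank ℚ (Ck q k) ≤ 2 ^ k := by
  classical
  have h1 : Nat.card ((ZMod q)ˣ ⧸ Hk q k) = 2 ^ k := by
    have h2 := IsCyclic.index_powMonoidHom_range (G := (ZMod q)ˣ) (2 ^ k)
    rw [Nat.card_eq_fintype_card, ZMod.card_units] at h2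
    rw [Nat.gcd_eq_right hk] at h2
    exact h2
  have h3 : Nat.card (Ck q k →ₐ[ℚ] Qb) = finrank ℚ (Ck q k) := by
    rw [Nat.card_eq_fintype_card]
    exact AlgHom.card ℚ (Ck q k) Qb
  rw [← h1, ← h3]
  -- lift embeddings
  have hlift : ∀ φ : Ck q k →ₐ[ℚ] Qb, ∃ σ : Qb ≃ₐ[ℚ] Qb, ∀ x : Ck q k, σ x = φ x := by
    intro φ
    have : Normal ℚ Qb := inferInstance
    refine ⟨AlgEquiv.ofBijective (φ.liftNormal Qb) (AlgHom.normal_bijective ℚ Qb Qb _), ?_⟩
    intro x
    exact φ.liftNormal_commutes Qb x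
  choose s hs using hlift
  apply Nat.card_le_card_of_injective (fun φ => (QuotientGroup.mk (ch q (s φ)) : (ZMod q)ˣ ⧸ Hk q k))
  intro φ ψ h
  have h4 : (ch q (s φ))⁻¹ * ch q (s ψ) ∈ Hk q k := QuotientGroup.eq.mp h
  rw [← map_inv, ← map_mul] at h4
  ext x
  have h5 := (mem_Ck q k x).mp x.2 _ h4
  have h6 : (s φ) (((s φ)⁻¹ * s ψ) x) = s ψ x := by simp [AlgEquiv.mul_apply]
  rw [← hs, ← hs, ← h6, h5]

/-- the periods -/
noncomputable def period (a : ZMod q) : Qb := by
  classical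
  exact ∑ h : (ZMod q)ˣ with h ∈ Hk q k, zt q ^ (a * h).val

lemma period_mem (a : ZMod q) : period q k a ∈ Ck q k := by
  classical
  rw [mem_Ck]
  intro σ hσ
  unfold period
  rw [map_sum]
  have key : ∀ b : ZMod q, σ (zt q ^ b.val) = zt q ^ ((ch q σ : ZMod q) * b).val := by
    intro b
    rw [map_pow, ch_spec, ← pow_mul]
    rw [ZMod.val_mul]
    conv_lhs => rw [← Nat.mod_add_div (((ch q σ : ZMod q)).val * b.val) q]
    rw [pow_add, pow_mul, (zt_spec q).pow_eq_one, one_pow, mul_one]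
  simp only [key]
  refine Finset.sum_bij (fun h _ => ch q σ * h) ?_ ?_ ?_ ?_
  · intro h hh
    simp only [Finset.mem_filter, Finset.mem_univ, true_and] at hh ⊢
    exact mul_mem hσ hh
  · intro h1 _ h2 _ h
    exact mul_left_cancel h
  · intro b hb
    simp only [Finset.mem_filter, Finset.mem_univ, true_and] at hb
    refine ⟨(ch q σ)⁻¹ * b, ?_, ?_⟩
    · simp only [Finset.mem_filter, Finset.mem_univ, true_and]
      exact mul_mem (inv_mem hσ) hb
    · simp
  · intro h _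
    congr 2
    push_cast
    ring

lemma period_integral (a : ZMod q) : IsIntegral ℤ (period q k a) := by
  classical
  unfold period
  apply IsIntegral.sum
  intro h _
  exact ((zt_spec q).isIntegral (NeZero.pos q)).pow _

end Pool.Agent.K3h19.US
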