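import Mathlib

set_option autoImplicit false

/-!
# Periods with equal values belong to the same coset
-/

namespace Pool.Agent.K3h19.US

open Finset

section

variable {κ : Type*} [Field κ] (q : ℕ) [Fact q.Prime] (z : κ) (hz : IsPrimitiveRoot z q)

include hz in
lemma pow_val_add (x y : ZMod q) : z ^ (x + y).val = z ^ x.val * z ^ y.val := by
  rw [ZMod.val_add, ← pow_add]
  conv_rhs => rw [← Nat.mod_add_div (x.val + y.val) q]
  rw [pow_add z ((x.val + y.val) % q), pow_mul, hz.pow_eq_one, one_pow, mul_one]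

include hz in
lemma pow_val_natCast_mul (m : ℕ) (x : ZMod q) : z ^ ((m : ZMod q) * x).val = (z ^ x.val) ^ m := by
  rw [← pow_mul, ZMod.val_mul, ZMod.val_natCast]
  have h1 : (m % q * x.val) % q = (x.val * m) % q := by
    rw [Nat.mul_mod, Nat.mod_mod, ← Nat.mul_mod, mul_comm]
  rw [h1]
  conv_rhs => rw [← Nat.mod_add_div (x.val * m) q]
  rw [pow_add, pow_mul, hz.pow_eq_one, one_pow, mul_one]

include hz in
lemma sum_char (c : ZMod q) : ∑ a : ZMod q, z ^ (a * c).val = if c = 0 then (q : κ) else 0 := by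
  split_ifs with h
  · subst h
    simp
  · have h1 : ∑ a : ZMod q, z ^ (a * c).val = ∑ a : ZMod q, z ^ a.val := by
      apply Fintype.sum_bijective (fun a => a * c) (mulRight_bijective₀ c h)
      intro a
      rfl
    rw [h1]
    have h2 : ∑ a : ZMod q, z ^ a.val = ∑ i ∈ range q, z ^ i := by
      symm
      refine Finset.sum_bij (fun (i : ℕ) _ => (i : ZMod q)) ?_ ?_ ?_ ?_
      · intro i _
        exact mem_univ _
      · intro i hi j hj hij
        have h3 := (ZMod.natCast_eq_natCast_iff' i j q).mp hij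
        rwa [Nat.mod_eq_of_lt (mem_range.mp hi), Nat.mod_eq_of_lt (mem_range.mp hj)] at h3
      · intro a _
        exact ⟨a.val, mem_range.mpr (ZMod.val_lt a), ZMod.natCast_zmod_val a⟩
      · intro i hi
        rw [ZMod.val_natCast, Nat.mod_eq_of_lt (mem_range.mp hi)]
    rw [h2]
    exact hz.geom_sum_eq_zero (Fact.out : q.Prime).one_lt

open Classical in
include hz in
theorem mem_of_periods (hq : (q : κ) ≠ 0) (H : Subgroup (ZMod q)ˣ) (b : (ZMod q)ˣ)
    (h : ∀ a : ZMod q, ∑ u : (ZMod q)ˣ with u ∈ H, z ^ ((b : ZMod q) * (a * u)).val =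
      ∑ u : (ZMod q)ˣ with u ∈ H, z ^ (a * u).val) : b ∈ H := by
  by_contra hb
  have h1 : ∑ a : ZMod q, z ^ (-a).val * ∑ u : (ZMod q)ˣ with u ∈ H,
      z ^ ((b : ZMod q) * (a * u)).val =
      ∑ a : ZMod q, z ^ (-a).val * ∑ u : (ZMod q)ˣ with u ∈ H, z ^ (a * u).val :=
    sum_congr rfl fun a _ => by rw [h a]
  have key : ∀ (g : (ZMod q)ˣ → ZMod q), ∑ a : ZMod q, z ^ (-a).val *
      ∑ u : (ZMod q)ˣ with u ∈ H, z ^ (a * g u).val =
      ∑ u : (ZMod q)ˣ with u ∈ H, if g u = 1 then (q : κ) else 0 := by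
    intro g
    simp only [mul_sum]
    rw [sum_comm]
    apply sum_congr rfl
    intro u _
    have h2 : ∀ a : ZMod q, z ^ (-a).val * z ^ (a * g u).val = z ^ (a * (g u - 1)).val := by
      intro a
      rw [← pow_val_add q z hz]
      congr 2
      ring
    simp only [h2]
    rw [sum_char q z hz]
    simp only [sub_eq_zero]
  have h3 := key (fun u => (b : ZMod q) * u)
  have h4 := key (fun u => (u : ZMod q))
  have h5 : ∑ a : ZMod q, z ^ (-a).val * ∑ u : (ZMod q)ˣ with u ∈ H,
      z ^ (a * ((b : ZMod q) * u)).val = ∑ a : ZMod q, z ^ (-a).val *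
      ∑ u : (ZMod q)ˣ with u ∈ H, z ^ ((b : ZMod q) * (a * u)).val := by
    apply sum_congr rfl
    intro a _
    congr 1
    apply sum_congr rfl
    intro u _
    congr 2
    ring
  rw [h5, h1, h4] at h3
  have h6 : ∑ u : (ZMod q)ˣ with u ∈ H, (if (b : ZMod q) * u = 1 then (q : κ) else 0) = 0 := by
    apply sum_eq_zero
    intro u hu
    rw [if_neg]
    intro h7
    apply hb
    have h8 : b * u = 1 := by
      ext
      push_cast
      exact h7
    have h9 : b = u⁻¹ := eq_inv_of_mul_eq_one_left h8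
    rw [h9]
    exact inv_mem (mem_filter.mp hu).2
  rw [h6] at h3
  have h7 : ∑ u : (ZMod q)ˣ with u ∈ H, (if (u : ZMod q) = 1 then (q : κ) else 0) = q := by
    rw [sum_eq_single (1 : (ZMod q)ˣ)]
    · simp
    · intro u _ hu
      rw [if_neg]
      intro h8
      apply hu
      ext
      exact h8
    · intro h8
      exfalso
      apply h8
      exact mem_filter.mpr ⟨mem_univ _, one_mem H⟩
  exact hq (h7.symm.trans h3)

end

end Pool.Agent.K3h19.US
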