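import Mathlib
import Pool.Agent.W189.NF.Residue
import Pool.Agent.K3h19.US.Arith
import Pool.Agent.K3h19.US.Cyc
import Pool.Agent.K3h19.US.Fourier

set_option autoImplicit false

/-!
# Infinite local degrees
-/

namespace Pool.Agent.K3h19.US

open IsDedekindDomain NumberField IsLocalRing IntermediateField Module Polynomial
open Pool.Agent.W189.NF

/-- an injective self-map of a finite set has a power equal to the identity -/
lemma exists_iterate_id {α : Type*} (f : α → α) (hf : Function.Injective f) (S : Set α)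
    (hS : S.Finite) (hfS : ∀ x ∈ S, f x ∈ S) : ∃ j : ℕ, 0 < j ∧ ∀ x ∈ S, f^[j] x = x := by
  have : Finite S := hS
  let g : S → S := fun x => ⟨f x, hfS x x.2⟩
  have hg : Function.Injective g := by
    intro x y hxy
    apply Subtype.ext
    apply hf
    exact congrArg Subtype.val hxy
  let e : Equiv.Perm S := Equiv.ofBijective g (Finite.injective_iff_bijective.mp hg)
  have hfin : IsOfFinOrder e := isOfFinOrder_of_finite e
  refine ⟨orderOf e, hfin.orderOf_pos, fun x hx => ?_⟩
  have h1 : (e ^ orderOf e) ⟨x, hx⟩ = ⟨x, hx⟩ := by rw [pow_orderOf_eq_one]; rfl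
  have h2 : ∀ n : ℕ, (((e ^ n) ⟨x, hx⟩ : S) : α) = f^[n] x := by
    intro n
    induction n with
    | zero => rfl
    | succ n ih =>
      rw [pow_succ', Equiv.Perm.mul_apply, Function.iterate_succ_apply', ← ih]
      rfl
  rw [← h2, h1]

/-- the roots of the monic polynomials of bounded degree with coefficients in a finite set -/
lemma finite_roots {κ : Type*} [Field κ] (T : Set κ) (hT : T.Finite) (n : ℕ) :
    {y : κ | ∃ P : κ[X], P.Monic ∧ P.natDegree ≤ n ∧ (∀ i, P.coeff i ∈ T) ∧ P.eval y = 0}.Finite := by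
  classical
  have : Finite T := hT
  let g : (Fin (n + 1) → T) → κ[X] := fun c => ∑ i : Fin (n + 1), C (c i : κ) * X ^ (i : ℕ)
  refine (Set.finite_iUnion (fun c : Fin (n + 1) → T =>
    Finset.finite_toSet (g c).roots.toFinset)).subset ?_
  rintro y ⟨P, hP, hdeg, hc, hy⟩
  rw [Set.mem_iUnion]
  refine ⟨fun i => ⟨P.coeff i, hc i⟩, ?_⟩
  have h1 : g (fun i => ⟨P.coeff i, hc i⟩) = P := by
    show ∑ i : Fin (n + 1), C (P.coeff i) * X ^ (i : ℕ) = P
    rw [Fin.sum_univ_eq_sum_range (fun i => C (P.coeff i) * X ^ i) (n + 1)]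
    exact (P.as_sum_range_C_mul_X_pow' (by omega)).symm
  rw [h1]
  simp only [Finset.mem_coe, Multiset.mem_toFinset]
  exact (mem_roots hP.ne_zero).mpr hy

variable {K : Type} [Field K] [NumberField K] (v : HeightOneSpectrum (𝓞 K))

/-- if `p` is the residue characteristic of `v` and `F` contains the fields `Ck q k` for arbitrarily
large `k` and primes `q` with `2 ^ k ∣ q - 1` such that `p` is a nonresidue modulo `q`, then `F` has
infinite local degree at `v` -/
theorem infinite_local (p : ℕ) (hp : p.Prime) (hpv : (p : 𝓞 K) ∈ v.asIdeal) (F : Set Qb)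
    (hF : ∀ n : ℕ, ∃ (k q : ℕ) (hq : Fact q.Prime), n ≤ k ∧ 2 ^ k ∣ q - 1 ∧
      ¬ IsSquare (p : ZMod q) ∧ ∀ x ∈ Ck q k, x ∈ F)
    (ι : Qb →+* AlgebraicClosure (v.adicCompletion K)) :
    ¬ FiniteDimensional (v.adicCompletion K) (adjoin (v.adicCompletion K) (ι '' F)) := by
  classical
  intro hfd
  set Kv := v.adicCompletion K with hKv
  set Ω := AlgebraicClosure (v.adicCompletion K) with hΩ
  set W := adjoin (v.adicCompletion K) (ι '' F) with hW
  set n := finrank Kv W with hn
  obtain ⟨A, hA, hloc⟩ := IsLocalRing.exists_factor_valuationRing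
    (algebraMap (v.adicCompletionIntegers K) Ω)
  set κ := ResidueField A with hκ
  let g : Ov v →+* A :=
    (algebraMap (v.adicCompletionIntegers K) Ω).codRestrict A.toSubring hA
  -- the reduction of the integers of the completion
  let ρ : ResidueField (Ov v) →+* κ := @ResidueField.map _ _ _ _ _ _ g hloc
  have hρ : ∀ x : Ov v, residue A (g x) = ρ (residue (Ov v) x) := fun x => rfl
  have hfinκ : Finite (ResidueField (Ov v)) := by
    apply Nat.finite_of_card_ne_zero
    rw [card_residue]
    intro h0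
    have h1 := Ideal.absNorm_eq_zero_iff.mp h0
    exact v.ne_bot h1
  set T : Set κ := Set.range ρ with hT
  have hTfin : T.Finite := Set.finite_range ρ
  -- characteristic
  have hpκ : (p : κ) = 0 := by
    have h1 := (redMap_eq_zero v (p : 𝓞 K)).mpr hpv
    rw [map_natCast] at h1
    have h2 := congrArg ρ h1
    rw [map_natCast, map_zero] at h2
    exact h2
  have hchar : CharP κ p := (CharP.charP_iff_prime_eq_zero hp).mpr hpκ
  have hfp : Fact p.Prime := ⟨hp⟩
  -- integral elements belong to `A`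
  have hintA : ∀ x : Ω, IsIntegral (Ov v) x → x ∈ A := by
    intro x hx
    have h1 : IsIntegral A x := by
      obtain ⟨P, hP, hPx⟩ := hx
      refine ⟨P.map g, hP.map g, ?_⟩
      rw [eval₂_map]
      exact hPx
    obtain ⟨y, hy⟩ := IsIntegrallyClosed.isIntegral_iff.mp h1
    rw [← hy]
    exact y.2
  let S : Set κ := {y | ∃ x : Ω, x ∈ W ∧ ∃ hx : IsIntegral (Ov v) x,
    residue A ⟨x, hintA x hx⟩ = y}
  have hS : S.Finite := by
    refine (finite_roots T hTfin n).subset ?_
    rintro y ⟨x, hxW, hx, rfl⟩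
    refine ⟨(minpoly (Ov v) x).map (ρ.comp (residue (Ov v))), (minpoly.monic hx).map _, ?_, ?_, ?_⟩
    · rw [(minpoly.monic hx).natDegree_map]
      have h1 := minpoly.isIntegrallyClosed_eq_field_fractions' Kv hx
      have h2 : (minpoly Kv x).natDegree = (minpoly (Ov v) x).natDegree := by
        rw [h1, (minpoly.monic hx).natDegree_map]
      rw [← h2]
      have h3 : minpoly Kv x = minpoly Kv (⟨x, hxW⟩ : W) := by
        rw [← minpoly.algebraMap_eq (algebraMap W Ω).injective]
        rfl
      rw [h3]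
      exact minpoly.natDegree_le _
    · intro i
      rw [coeff_map]
      exact ⟨residue (Ov v) ((minpoly (Ov v) x).coeff i), rfl⟩
    · rw [eval_map]
      have h1 : (ρ.comp (residue (Ov v))) = (residue A).comp g := rfl
      rw [h1, ← hom_eval₂]
      have h2 : eval₂ g ⟨x, hintA x hx⟩ (minpoly (Ov v) x) = 0 := by
        apply Subtype.ext
        have h3 := hom_eval₂ (minpoly (Ov v) x) g A.subtype ⟨x, hintA x hx⟩
        show A.subtype (eval₂ g ⟨x, hintA x hx⟩ (minpoly (Ov v) x)) = A.subtype 0
        rw [h3, map_zero]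
        exact minpoly.aeval (Ov v) x
      rw [h2, map_zero]
  -- a power of the Frobenius is trivial on `S`
  obtain ⟨j, hj0, hj⟩ := exists_iterate_id (fun y : κ => y ^ p)
    (frobenius_inj κ p) S hS (by
      rintro y ⟨x, hxW, hx, rfl⟩
      refine ⟨x ^ p, pow_mem hxW p, hx.pow p, ?_⟩
      rw [← map_pow]
      rfl)
  have hj' : ∀ y ∈ S, y ^ p ^ j = y := by
    intro y hy
    have h1 := hj y hy
    have h2 : ∀ m : ℕ, (fun y : κ => y ^ p)^[m] y = y ^ p ^ m := by
      intro m
      induction m with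
      | zero => simp
      | succ m ih =>
        rw [Function.iterate_succ_apply', ih, ← pow_mul, ← pow_succ]
    rw [← h2, h1]
  obtain ⟨k, q, hq, hjk, hkq, hnsq, hCF⟩ := hF j
  have hpq : p ≠ q := by
    rintro rfl
    apply hnsq
    rw [CharP.cast_eq_zero]
    exact IsSquare.zero
  have hqκ : (q : κ) ≠ 0 := by
    intro h0
    have h1 := (CharP.cast_eq_zero_iff κ p q).mp h0
    exact hpq ((Nat.prime_dvd_prime_iff_eq hp hq.out).mp h1)
  have hintZ : ∀ x : Qb, IsIntegral ℤ x → IsIntegral (Ov v) (ι x) := by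
    rintro x ⟨P, hP, hPx⟩
    refine ⟨P.map (algebraMap ℤ (Ov v)), hP.map _, ?_⟩
    rw [eval₂_map]
    have h1 : (algebraMap (Ov v) Ω).comp (algebraMap ℤ (Ov v)) =
        ι.comp (algebraMap ℤ Qb) := Subsingleton.elim _ _
    rw [h1, ← hom_eval₂, hPx, map_zero]
  -- reduction of integers
  have hζint : IsIntegral ℤ (zt q) := (zt_spec q).isIntegral (NeZero.pos q)
  let ζ' : A := ⟨ι (zt q), hintA _ (hintZ _ hζint)⟩
  set z : κ := residue A ζ' with hz
  have hζ'q : ζ' ^ q = 1 := by
    apply Subtype.ext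
    show ι (zt q) ^ q = 1
    rw [← map_pow, (zt_spec q).pow_eq_one, map_one]
  have hsumζ : ∑ i ∈ Finset.range q, ζ' ^ i = 0 := by
    apply Subtype.ext
    have h1 : ((∑ i ∈ Finset.range q, ζ' ^ i : A) : Ω) = ∑ i ∈ Finset.range q, ι (zt q) ^ i := by
      push_cast
      rfl
    rw [h1]
    have h2 := congrArg ι ((zt_spec q).geom_sum_eq_zero hq.out.one_lt)
    rw [map_sum, map_zero] at h2
    simp only [map_pow] at h2
    exact h2
  have hzprim : IsPrimitiveRoot z q := by
    have h1 : z ^ q = 1 := by rw [hz, ← map_pow, hζ'q, map_one]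
    have h2 : z ≠ 1 := by
      intro h3
      have h4 := congrArg (residue A) hsumζ
      rw [map_sum, map_zero] at h4
      simp only [map_pow, ← hz, h3, one_pow, Finset.sum_const, Finset.card_range, nsmul_eq_mul,
        mul_one] at h4
      exact hqκ h4
    have h3 := orderOf_eq_prime h1 h2
    rw [← h3]
    exact IsPrimitiveRoot.orderOf z
  have hper : ∀ a : ZMod q, residue A ⟨ι (period q k a), hintA _ (hintZ _ (period_integral q k a))⟩
      = ∑ h : (ZMod q)ˣ with h ∈ Hk q k, z ^ (a * h).val := by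
    intro a
    have h1 : (⟨ι (period q k a), hintA _ (hintZ _ (period_integral q k a))⟩ : A) =
        ∑ h : (ZMod q)ˣ with h ∈ Hk q k, ζ' ^ (a * h).val := by
      apply Subtype.ext
      show ι (period q k a) = _
      unfold period
      rw [map_sum]
      push_cast
      simp only [map_pow]
      rfl
    rw [h1, map_sum]
    simp only [map_pow]
    rfl
  -- the unit `p ^ j`
  have hp0 : (p : ZMod q) ≠ 0 := by
    intro h0
    apply hnsq
    rw [h0]
    exact IsSquare.zero
  let b : (ZMod q)ˣ := Units.mk0 ((p : ZMod q) ^ j) (pow_ne_zero _ hp0)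
  have hb : b ∈ Hk q k := by
    apply mem_of_periods q z hzprim hqκ
    intro a
    have h1 := hj' (residue A ⟨ι (period q k a), hintA _ (hintZ _ (period_integral q k a))⟩)
      ⟨ι (period q k a), subset_adjoin _ _ ⟨_, hCF _ (period_mem q k a), rfl⟩,
        hintZ _ (period_integral q k a), rfl⟩
    rw [hper] at h1
    rw [sum_pow_char_pow] at h1
    rw [← h1]
    apply Finset.sum_congr rfl
    intro u _
    have h2 : (b : ZMod q) = ((p ^ j : ℕ) : ZMod q) := by
      show (p : ZMod q) ^ j = _
      push_cast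
      rfl
    rw [h2, pow_val_natCast_mul q z hzprim]
  obtain ⟨u, hu⟩ := hb
  have h1 : (p : ZMod q) ^ j = (u : ZMod q) ^ 2 ^ k := by
    have := congrArg (fun u : (ZMod q)ˣ => (u : ZMod q)) hu
    simp only [powMonoidHom_apply, Units.val_pow_eq_pow_val] at this
    exact this.symm
  have h2 := pow_dvd_of_mem q k p j hkq hnsq u hj0 h1
  have h3 := Nat.le_of_dvd hj0 h2
  have h4 : j < 2 ^ j := Nat.lt_two_pow_self
  have h5 : 2 ^ j ≤ 2 ^ k := Nat.pow_le_pow_right (by norm_num) hjk
  omega

end Pool.Agent.K3h19.US
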