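import Mathlib
import Pool.Agent.K3h19.US.Cyc

set_option autoImplicit false

/-!
# Automorphisms over a number field unramified at `q` act trivially modulo `1 - ζ`
-/

namespace Pool.Agent.K3h19.US

open NumberField IntermediateField Module

section

variable (L : Type) [Field L] [NumberField L] (F₁ F₂ : IntermediateField ℚ L)
    (q : ℕ) [Fact q.Prime]

/-- the integers of the compositum are generated by the integers of the two fields -/
lemma sup_eq_top (hcyc : IsCyclotomicExtension {q} ℚ F₂) (hsup : F₁ ⊔ F₂ = ⊤)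
    (hq : ¬ (q : ℤ) ∣ discr F₁) :
    (IsScalarTower.toAlgHom ℤ (𝓞 F₁) (𝓞 L)).range ⊔
      (IsScalarTower.toAlgHom ℤ (𝓞 F₂) (𝓞 L)).range = ⊤ := by
  have hq0 : NeZero q := ⟨(Fact.out : q.Prime).ne_zero⟩
  have hcop : IsCoprime (discr F₂) (discr F₁) := by
    have h1 := IsCyclotomicExtension.Rat.natAbs_discr q F₂
    have h2 : (discr F₂).natAbs ∣ q ^ (Nat.totient q) := by
      rw [h1]
      exact Nat.div_dvd_of_dvd (Nat.prod_primeFactors_pow_totient_ediv_dvd (NeZero.pos _))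
    have h3 : IsCoprime ((q : ℤ) ^ (Nat.totient q)) (discr F₁) := by
      apply IsCoprime.pow_left
      exact ((Nat.prime_iff_prime_int.mp (Fact.out : q.Prime)).irreducible.coprime_iff_not_dvd).mpr hq
    apply IsCoprime.of_isCoprime_of_dvd_left h3
    have h4 : ((discr F₂).natAbs : ℤ) ∣ (q : ℤ) ^ (Nat.totient q) := by exact_mod_cast h2
    exact Int.natAbs_dvd.mp h4
  have hgal : IsGalois ℚ F₂ := IsCyclotomicExtension.isGalois {q} ℚ F₂
  have hdisj : F₂.LinearDisjoint F₁ := linearDisjoint_of_isGalois_isCoprime_discr _ _ _ hcop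
  have hdisj' : F₁.LinearDisjoint F₂ := hdisj.symm
  apply IsDedekindDomain.range_sup_range_eq_top_of_isCoprime_differentIdeal ℤ (𝓞 L) (𝓞 F₁) (𝓞 F₂)
    hdisj'
  · rw [← sup_toSubalgebra_of_left, hsup, top_toSubalgebra]
  · exact isCoprime_differentIdeal_of_isCoprime_discr _ hcop.symm

/-- the elements which an automorphism fixes modulo `c` -/
noncomputable def fixAlg (j : L →+* Qb) (σ : Qb ≃ₐ[ℚ] Qb) (c : Qb) : Subalgebra ℤ (𝓞 L) where
  carrier := {y | ∃ t : Qb, IsIntegral ℤ t ∧ σ (j (y : L)) - j (y : L) = c * t}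
  mul_mem' := by
    rintro a b ⟨s, hs, hs'⟩ ⟨t, ht, ht'⟩
    have hbint : IsIntegral ℤ (σ (j (b : L))) :=
      ((b.isIntegral_coe).map (j.toIntAlgHom)).map ((σ : Qb →+* Qb).toIntAlgHom)
    have haint : IsIntegral ℤ (j (a : L)) := (a.isIntegral_coe).map (j.toIntAlgHom)
    refine ⟨s * σ (j (b : L)) + j (a : L) * t, (hs.mul hbint).add (haint.mul ht), ?_⟩
    have h1 : j ((a * b : 𝓞 L) : L) = j (a : L) * j (b : L) := by
      push_cast
      rw [map_mul]
    rw [h1, map_mul]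
    linear_combination σ (j (b : L)) * hs' + j (a : L) * ht'
  add_mem' := by
    rintro a b ⟨s, hs, hs'⟩ ⟨t, ht, ht'⟩
    refine ⟨s + t, hs.add ht, ?_⟩
    have h1 : j ((a + b : 𝓞 L) : L) = j (a : L) + j (b : L) := by
      push_cast
      rw [map_add]
    rw [h1, map_add]
    linear_combination hs' + ht'
  algebraMap_mem' := by
    intro r
    refine ⟨0, isIntegral_zero, ?_⟩
    have h1 : j ((algebraMap ℤ (𝓞 L) r : 𝓞 L) : L) = (r : Qb) := by
      simp
    rw [h1, map_intCast]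
    ring

lemma mem_fixAlg (j : L →+* Qb) (σ : Qb ≃ₐ[ℚ] Qb) (c : Qb) (y : 𝓞 L) :
    y ∈ fixAlg L j σ c ↔ ∃ t : Qb, IsIntegral ℤ t ∧ σ (j (y : L)) - j (y : L) = c * t := Iff.rfl

/-- the automorphisms which fix `F₁` act trivially modulo `1 - ζ` on the integers of `F₁(ζ)` -/
theorem sub_mem_abs (ζ : L) (hζ : IsPrimitiveRoot ζ q) (hsup : F₁ ⊔ ℚ⟮ζ⟯ = ⊤)
    (hq : ¬ (q : ℤ) ∣ discr F₁) (j : L →+* Qb) (σ : Qb ≃ₐ[ℚ] Qb)
    (hσ : ∀ x ∈ F₁, σ (j x) = j x) (y : 𝓞 L) :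
    ∃ t : Qb, IsIntegral ℤ t ∧ σ (j (y : L)) - j (y : L) = (1 - j ζ) * t := by
  have hq0 : NeZero q := ⟨(Fact.out : q.Prime).ne_zero⟩
  have hcyc : IsCyclotomicExtension {q} ℚ ℚ⟮ζ⟯ := hζ.intermediateField_adjoin_isCyclotomicExtension ℚ
  have htop := sup_eq_top L F₁ ℚ⟮ζ⟯ q hcyc hsup hq
  have hT : fixAlg L j σ (1 - j ζ) = ⊤ := by
    rw [eq_top_iff, ← htop]
    apply sup_le
    · rintro _ ⟨x, rfl⟩
      refine ⟨0, isIntegral_zero, ?_⟩
      have h2 : (((IsScalarTower.toAlgHom ℤ (𝓞 F₁) (𝓞 L)).toRingHom x : 𝓞 L) : L) =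
          ((x : F₁) : L) := rfl
      rw [h2, hσ _ (x : F₁).2]
      ring
    · have hζ' : IsPrimitiveRoot (AdjoinSimple.gen ℚ ζ) q := IsPrimitiveRoot.coe_submonoidClass_iff.mp hζ
      have h3 := IsCyclotomicExtension.Rat.adjoin_singleton_eq_top (n := q) (K := ℚ⟮ζ⟯) hζ'
      rintro _ ⟨x, rfl⟩
      have hx : x ∈ Algebra.adjoin ℤ {hζ'.toInteger} := by rw [h3]; trivial
      -- induction over the generators
      have h4 : Algebra.adjoin ℤ {hζ'.toInteger} ≤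
          (fixAlg L j σ (1 - j ζ)).comap (IsScalarTower.toAlgHom ℤ (𝓞 ℚ⟮ζ⟯) (𝓞 L)) := by
        rw [Algebra.adjoin_le_iff]
        rintro _ rfl
        show (IsScalarTower.toAlgHom ℤ (𝓞 ℚ⟮ζ⟯) (𝓞 L)) hζ'.toInteger ∈ fixAlg L j σ (1 - j ζ)
        rw [mem_fixAlg]
        have h5 : (((IsScalarTower.toAlgHom ℤ (𝓞 ℚ⟮ζ⟯) (𝓞 L)) hζ'.toInteger : 𝓞 L) : L) = ζ := rfl
        rw [h5]
        have h6 : IsPrimitiveRoot (j ζ) q := hζ.map_of_injective j.injective
        have h7 : (σ (j ζ)) ^ q = 1 := by rw [← map_pow, h6.pow_eq_one, map_one]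
        obtain ⟨i, _, hi⟩ := h6.eq_pow_of_pow_eq_one h7
        have hint : IsIntegral ℤ (j ζ) := h6.isIntegral (NeZero.pos q)
        refine ⟨-(∑ m ∈ Finset.range i, j ζ ^ m) + 1, ?_, ?_⟩
        · exact (IsIntegral.neg (IsIntegral.sum _ fun m _ => hint.pow m)).add isIntegral_one
        · rw [← hi]
          have h8 := mul_neg_geom_sum (j ζ) i
          linear_combination h8
      exact h4 hx
  have hy : y ∈ fixAlg L j σ (1 - j ζ) := by rw [hT]; trivial
  exact (mem_fixAlg L j σ _ y).mp hy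

end

section

variable (M : IntermediateField ℚ Qb) [NumberField M] (q : ℕ) [Fact q.Prime]

instance instNeZeroPrime : NeZero q := ⟨(Fact.out : q.Prime).ne_zero⟩

instance instNFsup (N : IntermediateField ℚ Qb) [NumberField N] :
    NumberField (M ⊔ N : IntermediateField ℚ Qb) where
  to_charZero := inferInstance
  to_finiteDimensional := inferInstance

/-- the automorphisms which fix `M` act trivially modulo `1 - ζ` on the integers of `M(ζ)` -/
theorem sub_mem (hq : ¬ (q : ℤ) ∣ discr M) (σ : Qb ≃ₐ[ℚ] Qb) (hσ : ∀ x ∈ M, σ x = x) (γ : Qb)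
    (hγ : γ ∈ M ⊔ ℚ⟮zt q⟯) (hint : IsIntegral ℤ γ) :
    ∃ t : Qb, IsIntegral ℤ t ∧ σ γ - γ = (1 - zt q) * t := by
  have hE : NumberField ℚ⟮zt q⟯ := { to_charZero := inferInstance, to_finiteDimensional := inferInstance }
  let L : Type := (M ⊔ ℚ⟮zt q⟯ : IntermediateField ℚ Qb)
  let j : L →+* Qb := algebraMap (M ⊔ ℚ⟮zt q⟯ : IntermediateField ℚ Qb) Qb
  let f : L →ₐ[ℚ] Qb := j.toRatAlgHom
  have hle : M ≤ M ⊔ ℚ⟮zt q⟯ := le_sup_left
  have hζL : zt q ∈ M ⊔ ℚ⟮zt q⟯ := (le_sup_right : ℚ⟮zt q⟯ ≤ _) (mem_adjoin_simple_self ℚ (zt q))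
  let ζ : L := ⟨zt q, hζL⟩
  have hjζ : j ζ = zt q := rfl
  have hζ : IsPrimitiveRoot ζ q := IsPrimitiveRoot.of_map_of_injective (f := j) (zt_spec q) j.injective
  let F₁ : IntermediateField ℚ L := M.comap f
  have hF₁ : ∀ x : L, x ∈ F₁ ↔ j x ∈ M := fun x => Iff.rfl
  have hsup : F₁ ⊔ ℚ⟮ζ⟯ = ⊤ := by
    rw [eq_top_iff]
    intro x _
    have h1 : (F₁ ⊔ ℚ⟮ζ⟯).map f = M ⊔ ℚ⟮zt q⟯ := by
      rw [IntermediateField.map_sup, adjoin_map, Set.image_singleton]
      congr 1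
      apply le_antisymm
      · rintro _ ⟨y, hy, rfl⟩
        exact hy
      · intro y hy
        exact ⟨⟨y, hle hy⟩, hy, rfl⟩
    have h2 : j x ∈ (F₁ ⊔ ℚ⟮ζ⟯).map f := by
      rw [h1]
      exact x.2
    obtain ⟨y, hy, hxy⟩ := h2
    have h3 : y = x := j.injective hxy
    rw [← h3]
    exact hy
  have hdis : discr F₁ = discr M := by
    let e : F₁ →+* M :=
      { toFun := fun x => ⟨j x, x.2⟩
        map_one' := by apply Subtype.ext; exact map_one j
        map_mul' := fun x y => by apply Subtype.ext; exact map_mul j _ _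
        map_zero' := by apply Subtype.ext; exact map_zero j
        map_add' := fun x y => by apply Subtype.ext; exact map_add j _ _ }
    have he : Function.Bijective e := by
      refine ⟨e.injective, fun y => ⟨⟨⟨y, hle y.2⟩, y.2⟩, ?_⟩⟩
      rfl
    exact discr_eq_discr_of_ringEquiv _ (RingEquiv.ofBijective e he)
  have hintL : IsIntegral ℤ (⟨γ, hγ⟩ : L) := by
    obtain ⟨P, hP, hPx⟩ := hint
    refine ⟨P, hP, ?_⟩
    apply j.injective
    rw [Polynomial.hom_eval₂, map_zero, ← hPx]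
    congr 1
  obtain ⟨t, ht, h⟩ := sub_mem_abs L F₁ q ζ hζ hsup (by rw [hdis]; exact hq) j σ
    (fun x hx => hσ _ hx) ⟨⟨γ, hγ⟩, hintL⟩
  exact ⟨t, ht, h⟩

end

end Pool.Agent.K3h19.US
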