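import Mathlib
import Pool.Agent.H58W.HtNorth
import Pool.Agent.K3h19.US.Ram

set_option autoImplicit false

/-!
# Elements moved by an automorphism which is trivial modulo `1 - ζ` have large height
-/

namespace Pool.Agent.K3h19.US

open NumberField IntermediateField Module Height

/-- an integral multiple of a prime number which is rational -/
lemma dvd_of_integral (q : ℕ) (hq : q.Prime) (z : ℤ) (s : Qb) (hs : IsIntegral ℤ s)
    (h : (z : Qb) = q * s) : (q : ℤ) ∣ z := by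
  have hq0 : (q : ℚ) ≠ 0 := by exact_mod_cast hq.ne_zero
  have hq0' : (q : Qb) ≠ 0 := by exact_mod_cast hq.ne_zero
  have h1 : s = algebraMap ℚ Qb ((z : ℚ) / q) := by
    rw [map_div₀, map_intCast, map_natCast, h]
    field_simp
  rw [h1] at hs
  have h2 : IsIntegral ℤ ((z : ℚ) / q) := by
    obtain ⟨P, hP, hPx⟩ := hs
    refine ⟨P, hP, ?_⟩
    apply (algebraMap ℚ Qb).injective
    rw [Polynomial.hom_eval₂, map_zero, ← hPx]
    congr 1
  obtain ⟨y, hy⟩ := IsIntegrallyClosed.isIntegral_iff.mp h2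
  refine ⟨y, ?_⟩
  have h3 : (z : ℚ) = q * y := by
    have h4 : ((y : ℤ) : ℚ) = (z : ℚ) / q := by
      rw [← hy]
      simp
    rw [h4]
    field_simp
  exact_mod_cast h3

/-- `(1 - ζ) ^ q` is divisible by `q` -/
lemma one_sub_pow (q : ℕ) (hq : q.Prime) (ζ : Qb) (hζ : IsPrimitiveRoot ζ q) :
    ∃ s : Qb, IsIntegral ℤ s ∧ (1 - ζ) ^ q = q * s := by
  have hζi : IsIntegral ℤ ζ := hζ.isIntegral hq.pos
  let O := integralClosure ℤ Qb
  let x : O := ⟨ζ, hζi⟩
  obtain ⟨r, hr⟩ := exists_add_pow_prime_eq hq (1 : O) (-x)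
  have h1 := congrArg (fun y : O => (y : Qb)) hr
  push_cast at h1
  have hx : (x : Qb) = ζ := rfl
  rw [hx] at h1
  rcases hq.eq_two_or_odd' with h2 | h2
  · subst h2
    refine ⟨1 - ζ * r, isIntegral_one.sub (hζi.mul r.2), ?_⟩
    rw [sub_eq_add_neg, h1, neg_pow, hζ.pow_eq_one]
    push_cast
    ring
  · refine ⟨-(ζ * r), (hζi.mul r.2).neg, ?_⟩
    rw [sub_eq_add_neg, h1, h2.neg_pow, hζ.pow_eq_one]
    ring

lemma dvd_of_one_sub (q : ℕ) (hq : q.Prime) (ζ : Qb) (hζ : IsPrimitiveRoot ζ q) (z : ℤ) (t : Qb)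
    (ht : IsIntegral ℤ t) (h : (z : Qb) = (1 - ζ) * t) : (q : ℤ) ∣ z := by
  obtain ⟨s, hs, hs'⟩ := one_sub_pow q hq ζ hζ
  have h1 : ((z ^ q : ℤ) : Qb) = q * (s * t ^ q) := by
    push_cast
    rw [h, mul_pow, hs']
    ring
  have h2 := dvd_of_integral q hq (z ^ q) _ (hs.mul (ht.pow q)) h1
  exact (Nat.prime_iff_prime_int.mp hq).dvd_of_dvd_pow h2

theorem norm_bound (L : Type) [Field L] [NumberField L] (a : L) (τ : L →+* L) (hτ : τ a ≠ a)
    (R : ℝ) (hR : mulHeight₁ a ≤ R) (q : ℕ) (hq : q.Prime) (j : L →+* Qb) (ζ : Qb)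
    (hζ : IsPrimitiveRoot ζ q)
    (hdiv : ∀ y : L, IsIntegral ℤ y → ∃ t : Qb, IsIntegral ℤ t ∧ j (τ y) - j y = (1 - ζ) * t) :
    (q : ℝ) ≤ (2 * R ^ 2) ^ finrank ℚ L := by
  obtain ⟨n, hn0, hnR, hint⟩ := exists_nat_le_mulHeight₁ a
  have hn0' : (n : L) ≠ 0 := by exact_mod_cast hn0
  have hR0 : 0 ≤ R := (mulHeight₁_pos a).le.trans hR
  set b : L := τ (n * a) - n * a with hb
  have hb' : b = n * (τ a - a) := by
    rw [hb, map_mul, map_natCast]
    ring
  have hb0 : b ≠ 0 := by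
    rw [hb']
    exact mul_ne_zero hn0' (sub_ne_zero.mpr hτ)
  have hbint : IsIntegral ℤ b := (hint.map τ.toIntAlgHom).sub hint
  have hzint : IsIntegral ℤ (Algebra.norm ℚ b) := Algebra.isIntegral_norm ℚ hbint
  obtain ⟨z, hz⟩ := IsIntegrallyClosed.isIntegral_iff.mp hzint
  have hz' : (z : ℚ) = Algebra.norm ℚ b := by
    rw [← hz]
    simp
  have hz0 : z ≠ 0 := by
    rintro rfl
    rw [Int.cast_zero] at hz'
    exact hb0 (Algebra.norm_eq_zero_iff.mp hz'.symm)
  -- the norm is divisible by `q`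
  have hdvd : (q : ℤ) ∣ z := by
    classical
    have h1 := Algebra.norm_eq_prod_embeddings ℚ Qb b
    obtain ⟨t, ht, htb⟩ := hdiv (n * a) hint
    have htb' : j.toRatAlgHom b = (1 - ζ) * t := by
      show j b = _
      rw [hb, map_sub]
      exact htb
    rw [← Finset.mul_prod_erase Finset.univ _ (Finset.mem_univ j.toRatAlgHom), htb', mul_assoc,
      ← hz', map_intCast] at h1
    refine dvd_of_one_sub q hq ζ hζ z _ ?_ h1
    apply ht.mul
    apply IsIntegral.prod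
    intro φ _
    exact hbint.map (φ : L →+* Qb).toIntAlgHom
  -- the size of the norm
  have hsize : ‖((z : ℚ) : ℂ)‖ ≤ (2 * R ^ 2) ^ finrank ℚ L := by
    have h1 := Algebra.norm_eq_prod_embeddings ℚ ℂ b
    have h2 : algebraMap ℚ ℂ (Algebra.norm ℚ b) = ((z : ℚ) : ℂ) := by
      rw [← hz']
      simp
    rw [h2] at h1
    rw [h1, norm_prod]
    have h3 : ∀ φ ∈ (Finset.univ : Finset (L →ₐ[ℚ] ℂ)), ‖φ b‖ ≤ 2 * R ^ 2 := by
      intro φ _
      have h4 : ‖φ (τ a)‖ ≤ R :=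
        (Pool.Agent.H58W.norm_embedding_le_mulHeight₁ a ((φ : L →+* ℂ).comp τ)).trans hR
      have h5 : ‖φ a‖ ≤ R :=
        (Pool.Agent.H58W.norm_embedding_le_mulHeight₁ a (φ : L →+* ℂ)).trans hR
      rw [hb', map_mul, map_natCast, map_sub, norm_mul, Complex.norm_natCast]
      calc (n : ℝ) * ‖φ (τ a) - φ a‖ ≤ R * (R + R) :=
            mul_le_mul (hnR.trans hR) ((norm_sub_le _ _).trans (add_le_add h4 h5))
              (norm_nonneg _) hR0
        _ = 2 * R ^ 2 := by ring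
    refine (Finset.prod_le_prod (fun _ _ => norm_nonneg _) h3).trans ?_
    rw [Finset.prod_const, Finset.card_univ, AlgHom.card]
  have h6 : (q : ℝ) ≤ |(z : ℝ)| := by
    have h7 : (q : ℤ) ≤ |z| := Int.le_of_dvd (abs_pos.mpr hz0) ((dvd_abs _ _).mpr hdvd)
    exact_mod_cast h7
  have h8 : ‖((z : ℚ) : ℂ)‖ = |(z : ℝ)| := by
    have : ((z : ℚ) : ℂ) = ((z : ℝ) : ℂ) := by push_cast; rfl
    rw [this, Complex.norm_real, Real.norm_eq_abs]
  rw [h8] at hsize
  exact h6.trans hsize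

/-- automorphisms which fix `M` and move a given element -/
lemma exists_moving (M : IntermediateField ℚ Qb) (α : Qb) (hα : α ∉ M) :
    ∃ σ : Qb ≃ₐ[ℚ] Qb, (∀ x ∈ M, σ x = x) ∧ σ α ≠ α := by
  by_contra hcon
  push Not at hcon
  apply hα
  rw [← InfiniteGalois.fixedField_fixingSubgroup M, mem_fixedField_iff]
  intro σ hσ
  exact hcon σ fun x hx => (mem_fixingSubgroup_iff _ σ).mp hσ x hx

theorem height_large (M : IntermediateField ℚ Qb) [NumberField M] (q k : ℕ) [Fact q.Prime]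
    (hk : 2 ^ k ∣ q - 1) (hq : ¬ (q : ℤ) ∣ discr M) (B : ℝ) (hB : 0 ≤ B) (N₀ : ℕ)
    (hN₀ : finrank ℚ M * 2 ^ k ≤ N₀) (hbig : (2 * Real.exp (2 * N₀ * B)) ^ N₀ < q) :
    ∀ α ∈ M ⊔ Ck q k, α ∉ M → B < Pool.Agent.Helper259.AbsHt.absLogHeight ![1, α] := by
  intro α hα hαM
  by_contra hcon
  rw [not_lt] at hcon
  have hC : NumberField (Ck q k) := { to_charZero := inferInstance, to_finiteDimensional := inferInstance }
  obtain ⟨σ, hσM, hσα⟩ := exists_moving M α hαM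
  have hNle : finrank ℚ (M ⊔ Ck q k : IntermediateField ℚ Qb) ≤ N₀ := by
    refine (finrank_sup_le M (Ck q k)).trans ((Nat.mul_le_mul_left _ ?_).trans hN₀)
    exact finrank_Ck q k hk
  have hmap : ∀ x ∈ M ⊔ Ck q k, σ x ∈ M ⊔ Ck q k := by
    intro x hx
    have h1 : (M ⊔ Ck q k).map (σ : Qb →ₐ[ℚ] Qb) ≤ M ⊔ Ck q k := by
      rw [IntermediateField.map_sup]
      apply sup_le_sup
      · rintro _ ⟨y, hy, rfl⟩
        have : (σ : Qb →ₐ[ℚ] Qb) y = y := hσM y hy
        show (σ : Qb →ₐ[ℚ] Qb) y ∈ M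
        rw [this]
        exact hy
      · rintro _ ⟨y, hy, rfl⟩
        exact Ck_conj q k σ y hy
    exact h1 ⟨x, hx, rfl⟩
  let τ : (M ⊔ Ck q k : IntermediateField ℚ Qb) →+* (M ⊔ Ck q k : IntermediateField ℚ Qb) :=
    { toFun := fun x => ⟨σ x, hmap x x.2⟩
      map_one' := by apply Subtype.ext; exact map_one σ
      map_mul' := fun x y => by apply Subtype.ext; exact map_mul σ _ _
      map_zero' := by apply Subtype.ext; exact map_zero σ
      map_add' := fun x y => by apply Subtype.ext; exact map_add σ _ _ }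
  let a : (M ⊔ Ck q k : IntermediateField ℚ Qb) := ⟨α, hα⟩
  have hlog : logHeight₁ a ≤ N₀ * B := by
    rw [logHeight₁_eq_logHeight, logHeight_swap]
    have h1 := Pool.Agent.Helper259.AbsHt.val_eq (M ⊔ Ck q k : IntermediateField ℚ Qb) ![1, a]
    have e : (fun i => ((![1, a] i : (M ⊔ Ck q k : IntermediateField ℚ Qb)) : Qb)) = ![1, α] := by
      funext i
      fin_cases i
      · simp
      · simp [a]
    rw [e] at h1
    have hpos := Pool.Agent.Helper259.AbsHt.finrank_pos' (M ⊔ Ck q k : IntermediateField ℚ Qb)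
    rw [eq_div_iff hpos.ne'] at h1
    rw [← h1, mul_comm (N₀ : ℝ)]
    apply mul_le_mul hcon _ hpos.le hB
    exact_mod_cast hNle
  have hmul : mulHeight₁ a ≤ Real.exp (N₀ * B) := by
    rw [logHeight₁_eq_log_mulHeight₁] at hlog
    exact (Real.log_le_iff_le_exp (mulHeight₁_pos a)).mp hlog
  have hle : (M ⊔ Ck q k : IntermediateField ℚ Qb) ≤ M ⊔ ℚ⟮zt q⟯ := sup_le_sup_left (Ck_le q k) M
  have key := norm_bound (M ⊔ Ck q k : IntermediateField ℚ Qb) a τ (by
      intro h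
      apply hσα
      exact congrArg (fun x : (M ⊔ Ck q k : IntermediateField ℚ Qb) => (x : Qb)) h)
    (Real.exp (N₀ * B)) hmul q Fact.out (algebraMap (M ⊔ Ck q k : IntermediateField ℚ Qb) Qb)
    (zt q) (zt_spec q) (by
      intro y hy
      have hy' : IsIntegral ℤ (y : Qb) :=
        hy.map (algebraMap (M ⊔ Ck q k : IntermediateField ℚ Qb) Qb).toIntAlgHom
      exact sub_mem M q hq σ hσM y (hle y.2) hy')
  have h1 : 2 * Real.exp (N₀ * B) ^ 2 = 2 * Real.exp (2 * N₀ * B) := by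
    rw [← Real.exp_nat_mul]
    push_cast
    ring_nf
  rw [h1] at key
  have h2 : (1 : ℝ) ≤ 2 * Real.exp (2 * N₀ * B) := by
    have := Real.one_le_exp (show 0 ≤ 2 * N₀ * B by positivity)
    linarith
  have h3 := key.trans (pow_le_pow_right₀ h2 hNle)
  exact absurd hbig (not_lt.mpr h3)

end Pool.Agent.K3h19.US
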