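import Mathlib
import Pool.Agent.K3h19.US.Nm
import Pool.Agent.K3h19.US.Arith

set_option autoImplicit false

/-!
# The tower of number fields
-/

namespace Pool.Agent.K3h19.US

open NumberField IntermediateField Module
open Pool.Agent.Helper259.AbsHt (absLogHeight)

/-- one step of the construction -/
theorem step (i : ℕ) (M : IntermediateField ℚ Qb) (hM : NumberField M) :
    ∃ C : IntermediateField ℚ Qb, NumberField C ∧ (∀ σ : Qb ≃ₐ[ℚ] Qb, ∀ x ∈ C, σ x ∈ C) ∧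
      (∀ α ∈ M ⊔ C, α ∉ M →
        (i * finrank ℚ (M ⊔ C : IntermediateField ℚ Qb) + i : ℝ) < absLogHeight ![1, α]) ∧
      ∃ (q : ℕ) (_ : Fact q.Prime), 2 ^ i ∣ q - 1 ∧
        (∀ p : ℕ, p.Prime → p ≠ 2 → p ≤ i → ¬ IsSquare (p : ZMod q)) ∧ ∀ x ∈ Ck q i, x ∈ C := by
  set N₀ : ℕ := finrank ℚ M * 2 ^ i with hN₀
  set B : ℝ := i * N₀ + i with hB
  have hB0 : 0 ≤ B := by positivity
  obtain ⟨q, hq, hqb, hqi, hqp⟩ := exists_prime i i
    ((discr M).natAbs + ⌈(2 * Real.exp (2 * N₀ * B)) ^ N₀⌉₊)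
  have hfq : Fact q.Prime := ⟨hq⟩
  have hC : NumberField (Ck q i) :=
    { to_charZero := inferInstance, to_finiteDimensional := inferInstance }
  refine ⟨Ck q i, hC, Ck_conj q i, ?_, q, hfq, hqi, hqp, fun x hx => hx⟩
  intro α hα hαM
  have hnd : ¬ (q : ℤ) ∣ discr M := by
    intro h
    have h1 := Int.natAbs_dvd_natAbs.mpr h
    rw [Int.natAbs_natCast] at h1
    have h2 := Nat.le_of_dvd (Int.natAbs_pos.mpr (discr_ne_zero M)) h1
    omega
  have hbig : (2 * Real.exp (2 * N₀ * B)) ^ N₀ < q := by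
    refine (Nat.le_ceil _).trans_lt ?_
    exact_mod_cast (by omega : ⌈(2 * Real.exp (2 * N₀ * B)) ^ N₀⌉₊ < q)
  have h1 := height_large M q i hqi hnd B hB0 N₀ le_rfl hbig α hα hαM
  refine lt_of_le_of_lt ?_ h1
  have h2 : finrank ℚ (M ⊔ Ck q i : IntermediateField ℚ Qb) ≤ N₀ :=
    (finrank_sup_le M (Ck q i)).trans (Nat.mul_le_mul_left _ (finrank_Ck q i hqi))
  have h3 : (finrank ℚ (M ⊔ Ck q i : IntermediateField ℚ Qb) : ℝ) ≤ N₀ := by exact_mod_cast h2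
  rw [hB]
  have h4 := mul_le_mul_of_nonneg_left h3 (Nat.cast_nonneg (α := ℝ) i)
  linarith

theorem exists_tower : ∃ f : ℕ → IntermediateField ℚ Qb, (∀ i, NumberField (f i)) ∧ Monotone f ∧
    (∀ i, ∀ σ : Qb ≃ₐ[ℚ] Qb, ∀ x ∈ f i, σ x ∈ f i) ∧
    (∀ i, ∀ α ∈ f (i + 1), α ∉ f i →
      (i * finrank ℚ (f (i + 1)) + i : ℝ) < absLogHeight ![1, α]) ∧
    ∀ i, ∃ (q : ℕ) (_ : Fact q.Prime), 2 ^ i ∣ q - 1 ∧
      (∀ p : ℕ, p.Prime → p ≠ 2 → p ≤ i → ¬ IsSquare (p : ZMod q)) ∧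
      ∀ x ∈ Ck q i, x ∈ f (i + 1) := by
  let St : Type := {M : IntermediateField ℚ Qb // NumberField M}
  choose C hC1 hC2 hC3 hC4 using fun (i : ℕ) (M : St) => step i M.1 M.2
  let s : ℕ → St := fun i => Nat.rec (⟨⊥, { to_charZero := inferInstance
                                            to_finiteDimensional := inferInstance }⟩ : St)
    (fun i M => ⟨M.1 ⊔ C i M, by
      have := M.2
      have := hC1 i M
      exact instNFsup M.1 (C i M)⟩) i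
  have hs : ∀ i, (s (i + 1)).1 = (s i).1 ⊔ C i (s i) := fun i => rfl
  refine ⟨fun i => (s i).1, fun i => (s i).2, ?_, ?_, ?_, ?_⟩
  · apply monotone_nat_of_le_succ
    intro i
    rw [hs]
    exact le_sup_left
  · intro i
    induction i with
    | zero =>
      intro σ x hx
      have h1 : x ∈ (⊥ : IntermediateField ℚ Qb) := hx
      rw [mem_bot] at h1
      obtain ⟨r, rfl⟩ := h1
      rw [AlgEquiv.commutes]
      exact (⊥ : IntermediateField ℚ Qb).algebraMap_mem r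
    | succ i ih =>
      intro σ x hx
      have hx' : x ∈ (s i).1 ⊔ C i (s i) := hx
      show σ x ∈ (s i).1 ⊔ C i (s i)
      have h1 : ((s i).1 ⊔ C i (s i)).map (σ : Qb →ₐ[ℚ] Qb) ≤ (s i).1 ⊔ C i (s i) := by
        rw [IntermediateField.map_sup]
        apply sup_le_sup
        · rintro _ ⟨y, hy, rfl⟩
          exact ih σ y hy
        · rintro _ ⟨y, hy, rfl⟩
          exact hC2 i (s i) σ y hy
      exact h1 ⟨x, hx', rfl⟩
  · intro i α hα hαM
    exact hC3 i (s i) α hα hαM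
  · intro i
    obtain ⟨q, hq, h1, h2, h3⟩ := hC4 i (s i)
    exact ⟨q, hq, h1, h2, fun x hx => (le_sup_right : C i (s i) ≤ (s i).1 ⊔ C i (s i)) (h3 x hx)⟩

/-- the field `F` -/
theorem exists_F : ∃ F : IntermediateField ℚ Qb, (∀ σ : Qb ≃ₐ[ℚ] Qb, ∀ x ∈ F, σ x ∈ F) ∧
    (∀ m : ℕ, ∃ (D : ℕ) (B : ℝ), ∀ α ∈ F, (∀ E : ℕ, (minpoly ℚ α).natDegree ≤ E →
      absLogHeight ![1, α] ≤ m * E + m) → (minpoly ℚ α).natDegree ≤ D ∧
        absLogHeight ![1, α] ≤ B) ∧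
    ∀ (p : ℕ), p.Prime → p ≠ 2 → ∀ n : ℕ, ∃ (k q : ℕ) (_ : Fact q.Prime), n ≤ k ∧ 2 ^ k ∣ q - 1 ∧
      ¬ IsSquare (p : ZMod q) ∧ ∀ x ∈ Ck q k, x ∈ F := by
  classical
  obtain ⟨f, hf1, hf2, hf3, hf4, hf5⟩ := exists_tower
  have hmem : ∀ x : Qb, x ∈ (⨆ i, f i : IntermediateField ℚ Qb) ↔ ∃ i, x ∈ f i := by
    intro x
    rw [← SetLike.mem_coe, IntermediateField.coe_iSup_of_directed hf2.directed_le, Set.mem_iUnion]
    rfl
  have hdeg : ∀ i, ∀ x ∈ f i, (minpoly ℚ x).natDegree ≤ finrank ℚ (f i) := by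
    intro i x hx
    have := hf1 i
    have e : minpoly ℚ x = minpoly ℚ (⟨x, hx⟩ : f i) := by
      rw [← minpoly.algebraMap_eq (algebraMap (f i) Qb).injective]
      rfl
    rw [e]
    exact minpoly.natDegree_le _
  refine ⟨⨆ i, f i, ?_, ?_, ?_⟩
  · intro σ x hx
    rw [hmem] at hx ⊢
    obtain ⟨i, hi⟩ := hx
    exact ⟨i, hf3 i σ x hi⟩
  · intro m
    refine ⟨finrank ℚ (f m), m * finrank ℚ (f m) + m, fun α hα hαE => ?_⟩
    have hαm : α ∈ f m := by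
      rw [hmem] at hα
      by_contra hcon
      have hlt : m < Nat.find hα := by
        by_contra h
        exact hcon (hf2 (not_lt.mp h) (Nat.find_spec hα))
      obtain ⟨i, hi⟩ : ∃ i, Nat.find hα = i + 1 := ⟨Nat.find hα - 1, by omega⟩
      have h1 : α ∈ f (i + 1) := hi ▸ Nat.find_spec hα
      have h2 : α ∉ f i := Nat.find_min hα (by omega)
      have h3 := hf4 i α h1 h2
      have h4 := hαE (finrank ℚ (f (i + 1))) (hdeg _ α h1)
      have h5 : (m : ℝ) ≤ i := by exact_mod_cast (by omega : m ≤ i)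
      have h6 : (m : ℝ) * finrank ℚ (f (i + 1)) ≤ i * finrank ℚ (f (i + 1)) :=
        mul_le_mul_of_nonneg_right h5 (Nat.cast_nonneg _)
      linarith
    exact ⟨hdeg m α hαm, hαE _ (hdeg m α hαm)⟩
  · intro p hp hp2 n
    obtain ⟨q, hq, h1, h2, h3⟩ := hf5 (max n p)
    refine ⟨max n p, q, hq, le_max_left _ _, h1, h2 p hp hp2 (le_max_right _ _), fun x hx => ?_⟩
    rw [hmem]
    exact ⟨_, h3 x hx⟩

end Pool.Agent.K3h19.US
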