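import Mathlib
import Pool.Agent.H58W.HtLimit
import Pool.Agent.H58W.HtNorth
import Pool.Agent.K3h19.US.Tower
import Pool.Agent.K3h19.US.Loc

set_option autoImplicit false

/-!
# The field over the rational numbers: Galois, property (USB), infinite local degrees
-/

namespace Pool.Agent.K3h19.US

open NumberField IntermediateField Module IsDedekindDomain
open Pool.Agent.Helper259.AbsHt (absLogHeight)
open Pool.Agent.H58W (hM lift hev small_limit_bound northcott)

/-- the residue characteristic -/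
lemma exists_prime_mem {K : Type} [Field K] [NumberField K] (v : HeightOneSpectrum (𝓞 K)) :
    ∃ p : ℕ, p.Prime ∧ (p : 𝓞 K) ∈ v.asIdeal := by
  have h1 : ((Ideal.absNorm v.asIdeal : ℕ) : 𝓞 K) ∈ v.asIdeal := Ideal.absNorm_mem _
  have h2 : Ideal.absNorm v.asIdeal ≠ 0 := fun h => v.ne_bot (Ideal.absNorm_eq_zero_iff.mp h)
  generalize Ideal.absNorm v.asIdeal = n at h1 h2
  induction n using Nat.strong_induction_on with
  | _ n ih =>
    by_cases hn : n = 1
    · subst hn
      exfalso
      apply v.isPrime.ne_top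
      rw [Ideal.eq_top_iff_one]
      simpa using h1
    · obtain ⟨p, hp, m, rfl⟩ := Nat.exists_prime_and_dvd hn
      rw [Nat.cast_mul] at h1
      rcases v.isPrime.mem_or_mem h1 with h | h
      · exact ⟨p, hp, h⟩
      · have hm0 : m ≠ 0 := by
          rintro rfl
          exact h2 (mul_zero p)
        apply ih m _ h hm0
        have := hp.one_lt
        nlinarith [Nat.pos_of_ne_zero hm0]

lemma finite_over_two {K : Type} [Field K] [NumberField K] :
    {v : HeightOneSpectrum (𝓞 K) | ((2 : ℕ) : 𝓞 K) ∈ v.asIdeal}.Finite := by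
  have h0 : (Ideal.span {((2 : ℕ) : 𝓞 K)} : Ideal (𝓞 K)) ≠ 0 := by
    rw [Ne, Ideal.zero_eq_bot, Ideal.span_singleton_eq_bot]
    norm_num
  refine (Ideal.finite_factors h0).subset ?_
  intro v hv
  show v.asIdeal ∣ Ideal.span {((2 : ℕ) : 𝓞 K)}
  rw [Ideal.dvd_span_singleton]
  exact hv

theorem main : ∃ F : IntermediateField (⊥ : IntermediateField ℚ Qb) Qb,
    IsGalois (⊥ : IntermediateField ℚ Qb) F ∧
    (∀ (P Q : Polynomial Qb) (d : ℕ), max P.natDegree Q.natDegree = d → 2 ≤ d → IsCoprime P Q →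
      Set.Finite {α : Qb | α ∈ F ∧ ∃ L : ℝ, Filter.Tendsto
        (fun n : ℕ => hM (((lift P Q d)^[n] (α, 1)).1 / ((lift P Q d)^[n] (α, 1)).2) / (d : ℝ) ^ n)
        Filter.atTop (nhds L) ∧ L < 1}) ∧
    ∀ (hN : NumberField (⊥ : IntermediateField ℚ Qb)),
    Set.Finite {v : HeightOneSpectrum (𝓞 (⊥ : IntermediateField ℚ Qb)) |
        ∀ ι : Qb →ₐ[(⊥ : IntermediateField ℚ Qb)] AlgebraicClosure (v.adicCompletion (⊥ : IntermediateField ℚ Qb)),
          FiniteDimensional (v.adicCompletion (⊥ : IntermediateField ℚ Qb))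
            (IntermediateField.adjoin (v.adicCompletion (⊥ : IntermediateField ℚ Qb))
              (ι '' (F : Set Qb)))} := by
  obtain ⟨F, hF1, hF2, hF3⟩ := exists_F
  refine ⟨extendScalars (bot_le : ⊥ ≤ F), ?_, ?_, ?_⟩
  · have halg : Algebra.IsAlgebraic (⊥ : IntermediateField ℚ Qb) Qb :=
      ⟨fun x => ((Pool.Agent.H58W.isInt x).tower_top (A := (⊥ : IntermediateField ℚ Qb))).isAlgebraic⟩
    have hcl : IsAlgClosure (⊥ : IntermediateField ℚ Qb) Qb := ⟨inferInstance, halg⟩
    have hn : Normal (⊥ : IntermediateField ℚ Qb) Qb := IsAlgClosure.normal _ Qb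
    have hnF : Normal (⊥ : IntermediateField ℚ Qb) (extendScalars (bot_le : ⊥ ≤ F)) := by
      rw [normal_iff_forall_map_le']
      intro σ
      rintro _ ⟨x, hx, rfl⟩
      exact hF1 (σ.restrictScalars ℚ) x hx
    have hsep : Algebra.IsSeparable (⊥ : IntermediateField ℚ Qb) (extendScalars (bot_le : ⊥ ≤ F)) := by
      have : Algebra.IsAlgebraic (⊥ : IntermediateField ℚ Qb) (extendScalars (bot_le : ⊥ ≤ F)) :=
        inferInstance
      infer_instance
    exact ⟨⟩
  · intro P Q d hd hd2 hco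
    obtain ⟨m, hm⟩ := small_limit_bound P Q d hd hd2 hco
    obtain ⟨D, B, hDB⟩ := hF2 m
    refine (northcott D B).subset ?_
    rintro α ⟨hα, L, hL, hL1⟩
    exact hDB α hα fun E hE => hm E α hE L hL1 hL
  · intro hN
    refine finite_over_two.subset ?_
    intro v hv
    obtain ⟨p, hp, hpv⟩ := exists_prime_mem v
    by_cases hp2 : p = 2
    · subst hp2
      exact hpv
    · exfalso
      have halg : Algebra.IsAlgebraic (⊥ : IntermediateField ℚ Qb) Qb :=
        ⟨fun x => ((Pool.Agent.H58W.isInt x).tower_top (A := (⊥ : IntermediateField ℚ Qb))).isAlgebraic⟩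
      obtain ⟨ι⟩ : Nonempty (Qb →ₐ[(⊥ : IntermediateField ℚ Qb)]
        AlgebraicClosure (v.adicCompletion (⊥ : IntermediateField ℚ Qb))) := ⟨IsAlgClosed.lift⟩
      have h1 := hv ι
      have h2 := infinite_local v p hp hpv (F : Set Qb) (hF3 p hp hp2) ι.toRingHom
      exact h2 h1

end Pool.Agent.K3h19.US
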